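import Pool.Agent.H58.TwoType

namespace Pool.Agent.Results.MP_1643f9_gt.Exists
open Pool.Agent.H58.Surf Pool.Agent.H58.Stat
open scoped ContDiff

theorem result : ∃ (X x₁ x₂ : ℝ × ℝ → Fin 9 → ℝ) (l₁ l₂ r : ℝ),
    ContDiff ℝ ∞ X ∧ ContDiff ℝ ∞ x₁ ∧ ContDiff ℝ ∞ x₂ ∧
    (∀ p, 0 < gE X p * gG X p - gF X p ^ 2) ∧
    (∀ p, X p = x₁ p + x₂ p) ∧ (∃ p q, x₁ p ≠ x₁ q) ∧ (∃ p q, x₂ p ≠ x₂ q) ∧ l₁ ≠ l₂ ∧
    (∀ j p, lb X (fun q => x₁ q j) p = l₁ * x₁ p j) ∧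
    (∀ j p, lb X (fun q => x₂ q j) p = l₂ * x₂ p j) ∧
    0 < r ∧ (∀ p, X p ⬝ᵥ X p = r ^ 2) ∧
    ∀ (w : Fin 9 → ℝ) (c : ℝ), (∀ p, w ⬝ᵥ X p = c) → w = 0 := by
  have z : ∀ p, lb X (fun _ => 0) p = 0 := fun p => by simp [lb, dx, dy]
  refine ⟨X, fun p j => if j < 4 then X p j else 0, fun p j => if j < 4 then 0 else X p j,
    1 / 400, 3 / 400, √(1600 / 3), contDiff_pi.2 X_cd, contDiff_pi.2 fun j => ?_,
    contDiff_pi.2 fun j => ?_, fun p => ?_, fun p => ?_, ⟨(0, 0), (Real.pi, 0), fun h => ?_⟩,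
    ⟨(0, 0), (Real.pi / 2, 0), fun h => ?_⟩, by norm_num, fun j p => ?_, fun j p => ?_,
    by positivity, fun p => ?_, X_full⟩
  · split_ifs
    exacts [X_cd j, contDiff_const]
  · split_ifs
    exacts [contDiff_const, X_cd j]
  · have := G_pos p.1
    have := δ_pos p.1
    rw [X_E, X_F, X_G, zero_pow two_ne_zero, sub_zero]
    positivity
  · ext j
    simp only [Pi.add_apply]
    split_ifs <;> simp
  · have := congrFun h 0
    simp [X, a, b] at this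
    linarith
  · simpa [X, a, b, (δ_pos _).ne'] using congrFun h 4
  · beta_reduce
    split_ifs with h
    · rw [X_lb, l, if_pos h]
    · simp [z]
  · beta_reduce
    split_ifs with h
    · simp [z]
    · rw [X_lb, l, if_neg h]
  · rw [X_X, Real.sq_sqrt (by norm_num)]

end Pool.Agent.Results.MP_1643f9_gt.Exists
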